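import Mathlib
import Pool.Agent.Helper73.SelDefs
import Pool.Agent.Helper73.SelMain

/-!
Problem MP_74c39b_lc, Q1: full negative answer (in ZFC).
-/

set_option autoImplicit false

open Filter

namespace Pool.Agent.Results.MP_74c39b_lc.CoverPrinciplesDiffer

open Pool.Agent.Helper73.Sel

/-- For every `h ≥ 1` diverging to infinity there are `g ≥ 1` diverging to infinity and a Hausdorff
space which satisfies `S_1(Γ_g, O)` but not `S_1(Γ_h, O)`. -/
theorem result (h : ℕ → ℕ) (h1 : ∀ n, 1 ≤ h n) (hdiv : Tendsto h atTop atTop) :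
    ∃ g : ℕ → ℕ, (∀ n, 1 ≤ g n) ∧ Tendsto g atTop atTop ∧
      ∃ (X : Type) (_ : TopologicalSpace X), T2Space X ∧ SelectsCover X g ∧ ¬ SelectsCover X h :=
  q1_main h h1 hdiv

end Pool.Agent.Results.MP_74c39b_lc.CoverPrinciplesDiffer
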