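import Mathlib
import Pool.Agent.Helper73.SelDefs
import Pool.Agent.Helper73.SelMain

/-!
Problem MP_74c39b_lc, Q2: full negative answer (in ZFC).
-/

set_option autoImplicit false

namespace Pool.Agent.Results.MP_74c39b_lc.GammaPrinciplesDiffer

open Pool.Agent.Helper73.Sel

/-- For every unbounded `h` there is a Hausdorff space which satisfies `S_1(Γ_N, Γ)` for every
constant `N` (in particular `S_1(Γ_1, Γ)`) but not `S_1(Γ_h, Γ)`. -/
theorem result (h : ℕ → ℕ) (hunb : ∀ b, ∃ n, b ≤ h n) :
    ∃ (X : Type) (_ : TopologicalSpace X), T2Space X ∧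
      (∀ N : ℕ, SelectsGammaCover X (fun _ => N)) ∧ ¬ SelectsGammaCover X h :=
  q2_main h hunb

end Pool.Agent.Results.MP_74c39b_lc.GammaPrinciplesDiffer
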